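import Pool.Agent.H6.ASM.V0a
import Pool.Agent.H31.W3.H19.FLN.F1s
import Pool.Agent.H31.W3.H80.DIC.Tree
import Pool.Agent.H31.W.H19.FLN.F1s
import Pool.Agent.H31.W.H3.D2G.RecH
import Pool.Agent.H31.W.H73.D2.Tmw
import Pool.Agent.H31.W.H80.DIC.Tree
import Pool.Agent.H31.W.H80.DIC.Treer
import Pool.Agent.H31.W1.H91.FR.QpG
import Pool.Agent.H57.SWC.Lx

/-!
# The parts with two contact coordinates and a static target, or a target of slope one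

`CasP`: the cases at a window for all slopes with `Φ`, under a condition, with some property. `CelP`:
a class theorem for all slopes with `Φ`, with some property. The named parts, and `lV0A_of1`,
`lV0B_of1`, `lV01_of1`: `LV0A 4`, `LV0B 4`, `LV01 4` from the named parts.
-/

set_option autoImplicit false

namespace Pool.W.PKG

open Pool.PKG

open Pool.GEN
open Pool.LA91 (sumQ HerQ aePG_sum her_sum)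

section

variable {ι ι' : Type} {n : ℕ} {I : Set ℕ} {h : ℝ} {Sl : ℕ → ℝ} {κ : ℕ → Pool.PKG.Kg}
  {Q : Pool.PKG.PropG n ι} {Q' : Pool.PKG.PropG n ι'} {W : Pool.PKG.PropW n}

/-- Cases with more properties at hand. -/
theorem CasW.inl (H : Pool.W.PKG.CasW n I h Sl κ Q W) : Pool.W.PKG.CasW n I h Sl κ (Pool.LA91.sumQ Q Q') W := by
  intro S P θ c Pt r L T G g hg hq hW
  obtain ⟨i, hi, Lm, Z, h1, h2⟩ := H S P θ c Pt r L T G g hg (Pool.PKG.allQ_inl hq) hW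
  exact ⟨i, hi, Lm, Z, h1.inl, h2⟩

theorem CasW.inr (H : Pool.W.PKG.CasW n I h Sl κ Q' W) : Pool.W.PKG.CasW n I h Sl κ (Pool.LA91.sumQ Q Q') W := by
  intro S P θ c Pt r L T G g hg hq hW
  obtain ⟨i, hi, Lm, Z, h1, h2⟩ := H S P θ c Pt r L T G g hg (Pool.PKG.allQ_inr hq) hW
  exact ⟨i, hi, Lm, Z, h1.inr, h2⟩

end

/-- **The cases at a window**, for all slopes with `Φ`, under the condition `W Sl a` for all `a`, with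
some property. -/
def CasP (n : ℕ) (I : Set ℕ) (κ : ℕ → Pool.PKG.Kg) (Φ : (ℕ → ℝ) → Prop) {L₀ : Type}
    (W : (ℕ → ℝ) → L₀ → Pool.PKG.PropW n) : Prop :=
  ∃ (ι : Type) (_ : Countable ι) (Q : Pool.PKG.PropG n ι), Pool.W.PKG.AePG n Q ∧ Pool.LA91.HerQ Q ∧
    ∀ h : ℝ, 0 < h → h ≤ 1 → ∀ Sl : ℕ → ℝ, Φ Sl → ∀ a : L₀, Pool.W.PKG.CasW n I h Sl κ Q (W Sl a)

/-- **A class theorem** of the place `i`, for all slopes with `Φ`, under a condition with amounts, with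
some property. -/
def CelP (n i : ℕ) (κ : ℕ → Pool.PKG.Kg) (Φ : (ℕ → ℝ) → Prop) {Lm : Type}
    (Z : (ℕ → ℝ) → Lm → Pool.PKG.PropW n) : Prop :=
  ∃ (ι : Type) (_ : Countable ι) (Q : Pool.PKG.PropG n ι), Pool.W.PKG.AePG n Q ∧ Pool.LA91.HerQ Q ∧
    ∀ h : ℝ, 0 < h → h ≤ 1 → ∀ Sl : ℕ → ℝ, Φ Sl → Pool.W.PKG.CelZ n i h Sl κ Q (Z Sl)

section

variable {n i : ℕ} {I : Set ℕ} {κ : ℕ → Pool.PKG.Kg} {Φ Φ' : (ℕ → ℝ) → Prop} {L₀ L₁ Lm : Type}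

/-- From a class theorem over `CelQH`. -/
theorem casP_h {ι : Type} [Countable ι] {Q : Pool.PKG.PropG n ι} (hQ : Pool.W.PKG.AePG n Q) (hh : Pool.LA91.HerQ Q) (hi : i ∈ I)
    (H : ∀ h : ℝ, 0 < h → h ≤ 1 → ∀ Sl : ℕ → ℝ, Φ Sl → Pool.W.PKG.CelQH n i h Sl κ Q) :
    Pool.W.PKG.CasP n I κ Φ (fun _ (_ : Unit) => Pool.PKG.TruW n) :=
  ⟨ι, inferInstance, Q, hQ, hh, fun h h0 h1 Sl hS _ =>
    Pool.W.PKG.CasW.leaf hi (H h h0 h1 Sl hS).cz fun _ _ _ _ _ _ _ _ _ _ _ _ _ _ => trivial⟩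

/-- From a class theorem of a void kind of windows. -/
theorem casP_v {ι : Type} [Countable ι] {Q : Pool.PKG.PropG n ι} (hQ : Pool.W.PKG.AePG n Q) (hh : Pool.LA91.HerQ Q) (hi : i ∈ I)
    (H : ∀ h : ℝ, 0 < h → h ≤ 1 → ∀ Sl : ℕ → ℝ, Φ Sl → Pool.W.PKG.VoidQH n h Sl κ Q) :
    Pool.W.PKG.CasP n I κ Φ (fun _ (_ : Unit) => Pool.PKG.TruW n) :=
  ⟨ι, inferInstance, Q, hQ, hh, fun h h0 h1 Sl hS _ =>
    Pool.W.PKG.CasW.leaf hi ((H h h0 h1 Sl hS).vz.cel i) fun _ _ _ _ _ _ _ _ _ _ _ _ _ _ => trivial⟩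

theorem CasP.mono {W : (ℕ → ℝ) → L₀ → Pool.PKG.PropW n} (H : Pool.W.PKG.CasP n I κ Φ W)
    (hΦ : ∀ Sl, Φ' Sl → Φ Sl) : Pool.W.PKG.CasP n I κ Φ' W := by
  obtain ⟨ι, hc, Q, hQ, hh, H⟩ := H
  exact ⟨ι, hc, Q, hQ, hh, fun h h0 h1 Sl hS => H h h0 h1 Sl (hΦ Sl hS)⟩

/-- **A weaker condition.** -/
theorem CasP.imp {W : (ℕ → ℝ) → L₀ → Pool.PKG.PropW n} {W' : (ℕ → ℝ) → L₁ → Pool.PKG.PropW n} (H : Pool.W.PKG.CasP n I κ Φ W)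
    (f : L₁ → L₀) (hW : ∀ Sl a S P θ c Pt r L T G g, W' Sl a S P θ c Pt r L T κ G g →
      W Sl (f a) S P θ c Pt r L T κ G g) : Pool.W.PKG.CasP n I κ Φ W' := by
  obtain ⟨ι, hc, Q, hQ, hh, H⟩ := H
  exact ⟨ι, hc, Q, hQ, hh, fun h h0 h1 Sl hS a => (H h h0 h1 Sl hS (f a)).imp
    fun _ _ _ _ _ _ _ _ _ _ _ _ hw => hW Sl a _ _ _ _ _ _ _ _ _ _ hw⟩

/-- **Two ranges of the slopes.** -/
theorem CasP.num {W : (ℕ → ℝ) → L₀ → Pool.PKG.PropW n} (H : Pool.W.PKG.CasP n I κ Φ W) (H' : Pool.W.PKG.CasP n I κ Φ' W) :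
    Pool.W.PKG.CasP n I κ (fun Sl => Φ Sl ∨ Φ' Sl) W := by
  obtain ⟨ι, hc, Q, hQ, hh, H⟩ := H
  obtain ⟨ι', hc', Q', hQ', hh', H'⟩ := H'
  refine ⟨ι ⊕ ι', inferInstance, Pool.LA91.sumQ Q Q', Pool.W.LA91.aePG_sum hQ hh hQ', Pool.LA91.her_sum hh hh',
    fun h h0 h1 Sl hS a => ?_⟩
  rcases hS with hS | hS
  · exact (H h h0 h1 Sl hS a).inl
  · exact (H' h h0 h1 Sl hS a).inr

/-- **Two cases.** -/
theorem CasP.or {W : (ℕ → ℝ) → L₀ → Pool.PKG.PropW n} (Y : (ℕ → ℝ) → L₀ → Pool.PKG.PropW n)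
    (H : Pool.W.PKG.CasP n I κ Φ (fun Sl a => Pool.PKG.AndW (W Sl a) (Y Sl a)))
    (H' : Pool.W.PKG.CasP n I κ Φ (fun Sl a => Pool.PKG.AndW (W Sl a) (Pool.PKG.NotW (Y Sl a)))) : Pool.W.PKG.CasP n I κ Φ W := by
  obtain ⟨ι, hc, Q, hQ, hh, H⟩ := H
  obtain ⟨ι', hc', Q', hQ', hh', H'⟩ := H'
  exact ⟨ι ⊕ ι', inferInstance, Pool.LA91.sumQ Q Q', Pool.W.LA91.aePG_sum hQ hh hQ', Pool.LA91.her_sum hh hh',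
    fun h h0 h1 Sl hS a => Pool.W.PKG.CasW.or (Y Sl a) (H h h0 h1 Sl hS a).inl (H' h h0 h1 Sl hS a).inr⟩

/-- **One place is settled unless one of its conditions fails.** -/
theorem CelP.cas {Z : (ℕ → ℝ) → Lm → Pool.PKG.PropW n} (H : Pool.W.PKG.CelP n i κ Φ Z) (hi : i ∈ I)
    (H' : Pool.W.PKG.CasP n I κ Φ (fun Sl lam => Pool.PKG.NotW (Z Sl lam))) :
    Pool.W.PKG.CasP n I κ Φ (fun _ (_ : Unit) => Pool.PKG.TruW n) := by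
  obtain ⟨ι, hc, Q, hQ, hh, H⟩ := H
  obtain ⟨ι', hc', Q', hQ', hh', H'⟩ := H'
  exact ⟨ι ⊕ ι', inferInstance, Pool.LA91.sumQ Q Q', Pool.W.LA91.aePG_sum hQ hh hQ', Pool.LA91.her_sum hh hh',
    fun h h0 h1 Sl hS a => Pool.W.PKG.CasW.cel hi (H h h0 h1 Sl hS).inl fun lam =>
      ((H' h h0 h1 Sl hS lam).inr).imp fun _ _ _ _ _ _ _ _ _ _ _ _ hw => hw.2⟩

end

end Pool.W.PKG

namespace Pool.W.ALT

open Pool.ALT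

open Pool.PKG Pool.LA91

variable {n i : ℕ} {I : Set ℕ} {κ : ℕ → Pool.PKG.Kg} {Φ Φ' : (ℕ → ℝ) → Prop} {L₀ : Type}
  {W : (ℕ → ℝ) → L₀ → Pool.PKG.PropW n}

/-- **Full rate and small rate**: the numbers of the admissible families. -/
theorem _root_.Pool.W.PKG.CasP.rt (Adm : (ℕ → ℝ) → Pool.ALT.AltJ → Pool.PKG.PropW n) (β : (ℕ → ℝ) → ℝ)
    (hA : Pool.W.PKG.CasP n I κ Φ (fun Sl a => Pool.PKG.AndW (W Sl a) (Pool.ALT.FulA (Adm Sl) (β Sl))))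
    (hB : Pool.W.PKG.CasP n I κ Φ (fun Sl (a : L₀ × Pool.ALT.PosR × ℕ) =>
      Pool.PKG.AndW (W Sl a.1) (Pool.ALT.LowR (Adm Sl) (β Sl - a.2.1) a.2.2))) : Pool.W.PKG.CasP n I κ Φ W := by
  obtain ⟨ι, hc, Q, hQ, hh, H⟩ := hA
  obtain ⟨ι', hc', Q', hQ', hh', H'⟩ := hB
  refine ⟨(ι ⊕ ι') ⊕ Pool.ALT.AltI, inferInstance, Pool.LA91.sumQ (Pool.LA91.sumQ Q Q') (Pool.ALT.AltQ : Pool.PKG.PropG n Pool.ALT.AltI),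
    Pool.W.LA91.aePG_sum (Pool.W.LA91.aePG_sum hQ hh hQ') (Pool.LA91.her_sum hh hh') (Pool.W.ALT.aePG_alt n),
    Pool.LA91.her_sum (Pool.LA91.her_sum hh hh') (Pool.ALT.her_alt n), fun h h0 h1 Sl hS a => ?_⟩
  refine Pool.W.PKG.CasW.rt (Adm Sl) (β Sl) (fun _ _ _ _ _ _ _ _ _ _ hq => Pool.PKG.allQ_inr hq)
    (H h h0 h1 Sl hS a).inl.inl fun β' hβ' D => ?_
  refine ((H' h h0 h1 Sl hS (a, ⟨β Sl - β', by linarith⟩, D)).inr.inl).imp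
    fun _ _ _ _ _ _ _ _ _ _ _ _ hw => ⟨hw.1, ?_⟩
  have e : β Sl - (β Sl - β') = β' := by ring
  show Pool.ALT.LowR (Adm Sl) (β Sl - (β Sl - β')) D _ _ _ _ _ _ _ _ _ _ _
  rw [e]
  exact hw.2

end Pool.W.ALT

namespace Pool.W.ASM

open Pool.ASM

open Pool.GEN Pool.PKG Pool.ALT Pool.LA91

/-! ### The ranges of the slopes -/


/-! ### The named parts -/

/-- **Full rate**: the first jet of the place `r` is few. -/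
def PartA (r : ℕ) (κ : ℕ → Pool.PKG.Kg) (Φ : (ℕ → ℝ) → Prop) (Adm : (ℕ → ℝ) → Pool.ALT.AltJ → Pool.PKG.PropW 4)
    (β : (ℕ → ℝ) → ℝ) : Prop :=
  ∃ (ι : Type) (_ : Countable ι) (Q : Pool.PKG.PropG 4 ι), Pool.W.PKG.AePG 4 Q ∧ Pool.LA91.HerQ Q ∧
    ∀ h : ℝ, 0 < h → h ≤ 1 → ∀ Sl : ℕ → ℝ, Φ Sl →
      Pool.W.PKG.F1US 4 r h Sl κ Q (fun b : Pool.ALT.PosR × ℕ => Pool.ALT.FulR (Adm Sl) (β Sl) b.1 b.2)

/-- **Small rate, void**: no dead or alive. -/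
def PartB (κ : ℕ → Pool.PKG.Kg) (Φ : (ℕ → ℝ) → Prop) (Adm : (ℕ → ℝ) → Pool.ALT.AltJ → Pool.PKG.PropW 4)
    (β : (ℕ → ℝ) → ℝ) : Prop :=
  ∃ (ι : Type) (_ : Countable ι) (Q : Pool.PKG.PropG 4 ι), Pool.W.PKG.AePG 4 Q ∧ Pool.LA91.HerQ Q ∧
    ∀ h : ℝ, 0 < h → h ≤ 1 → ∀ Sl : ℕ → ℝ, Φ Sl → ∀ (b : Pool.ALT.PosR) (D : ℕ),
      Pool.W.PKG.VoidZ 4 h Sl κ Q (fun e : Pool.ALT.PosR => Pool.ALT.LowE (Adm Sl) (β Sl - b) D e)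

/-- **Small rate**: the first jet of the place `r` is few. -/
def PartC (r : ℕ) (κ : ℕ → Pool.PKG.Kg) (Φ : (ℕ → ℝ) → Prop) (Adm : (ℕ → ℝ) → Pool.ALT.AltJ → Pool.PKG.PropW 4)
    (β : (ℕ → ℝ) → ℝ) : Prop :=
  ∃ (ι : Type) (_ : Countable ι) (Q : Pool.PKG.PropG 4 ι), Pool.W.PKG.AePG 4 Q ∧ Pool.LA91.HerQ Q ∧
    ∀ h : ℝ, 0 < h → h ≤ 1 → ∀ Sl : ℕ → ℝ, Φ Sl → ∀ (b : Pool.ALT.PosR) (D : ℕ),
      Pool.W.PKG.F1US 4 r h Sl κ Q (fun e : Pool.ALT.PosR => Pool.ALT.LowE (Adm Sl) (β Sl - b) D e)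

/-- **Full rate, void.** -/
def PartV (κ : ℕ → Pool.PKG.Kg) (Φ : (ℕ → ℝ) → Prop) (Adm : (ℕ → ℝ) → Pool.ALT.AltJ → Pool.PKG.PropW 4)
    (β : (ℕ → ℝ) → ℝ) : Prop :=
  ∃ (ι : Type) (_ : Countable ι) (Q : Pool.PKG.PropG 4 ι), Pool.W.PKG.AePG 4 Q ∧ Pool.LA91.HerQ Q ∧
    ∀ h : ℝ, 0 < h → h ≤ 1 → ∀ Sl : ℕ → ℝ, Φ Sl →
      Pool.W.PKG.VoidZ 4 h Sl κ Q (fun b : Pool.ALT.PosR × ℕ => Pool.ALT.FulR (Adm Sl) (β Sl) b.1 b.2)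

/-- The cases at the windows with the numbers `Φ`, without a condition. -/
def PartW (r : ℕ) (κ : ℕ → Pool.PKG.Kg) (Φ : (ℕ → ℝ) → Prop) : Prop :=
  Pool.W.PKG.CasP 4 {r} κ Φ (fun _ (_ : Unit) => Pool.PKG.TruW 4)

section

variable {r : ℕ} {κ : ℕ → Pool.PKG.Kg} {Φ Φ' : (ℕ → ℝ) → Prop} {Adm : (ℕ → ℝ) → Pool.ALT.AltJ → Pool.PKG.PropW 4}
  {β : (ℕ → ℝ) → ℝ}

theorem PartA.cas (H : Pool.W.ASM.PartA r κ Φ Adm β) (hr : 1 ≤ r) (hr4 : r < 4) (hlast : r + 1 = 4) (hκ : ∀ l < r, κ l = .one)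
    (hκt : κ r = .stp) (hs : ∀ Sl, Φ Sl → 2 < Sl r) :
    Pool.W.PKG.CasP 4 {r} κ Φ (fun Sl (_ : Unit) => Pool.PKG.AndW (Pool.PKG.TruW 4) (Pool.ALT.FulA (Adm Sl) (β Sl))) := by
  obtain ⟨ι, hc, Q, hQ, hh, H⟩ := H
  exact ⟨ι ⊕ (ℕ × ℕ × ℚ × ℚ), inferInstance, Pool.LA91.sumQ Q Pool.W.LA91.FaQ, Pool.W.LA91.aePG_sum hQ hh (Pool.W.LA91.aePG_fa 4),
    Pool.LA91.her_sum hh (Pool.W.LA91.her_fa 4), fun h h0 h1 Sl hS _ =>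
    Pool.W.PKG.CasW.leaf rfl (Pool.W.PKG.celZ_f1s hr hr4 hlast hκ hκt (hs Sl hS) (H h h0 h1 Sl hS))
      fun _ _ _ _ _ _ _ _ _ _ _ _ hW b => hW.2 _ _ b.1.2⟩

theorem PartV.cas (H : Pool.W.ASM.PartV κ Φ Adm β) :
    Pool.W.PKG.CasP 4 {r} κ Φ (fun Sl (_ : Unit) => Pool.PKG.AndW (Pool.PKG.TruW 4) (Pool.ALT.FulA (Adm Sl) (β Sl))) := by
  obtain ⟨ι, hc, Q, hQ, hh, H⟩ := H
  exact ⟨ι, hc, Q, hQ, hh, fun h h0 h1 Sl hS _ =>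
    Pool.W.PKG.CasW.leaf rfl ((H h h0 h1 Sl hS).cel r)
      fun _ _ _ _ _ _ _ _ _ _ _ _ hW b => hW.2 _ _ b.1.2⟩

theorem PartB.cas (H : Pool.W.ASM.PartB κ Φ Adm β) :
    Pool.W.PKG.CasP 4 {r} κ Φ (fun Sl (a : Unit × Pool.ALT.PosR × ℕ) =>
      Pool.PKG.AndW (Pool.PKG.TruW 4) (Pool.ALT.LowR (Adm Sl) (β Sl - a.2.1) a.2.2)) := by
  obtain ⟨ι, hc, Q, hQ, hh, H⟩ := H
  exact ⟨ι, hc, Q, hQ, hh, fun h h0 h1 Sl hS a =>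
    Pool.W.PKG.CasW.leaf rfl ((H h h0 h1 Sl hS a.2.1 a.2.2).cel r)
      fun _ _ _ _ _ _ _ _ _ _ _ _ hW e => hW.2.e e⟩

theorem PartC.cas (H : Pool.W.ASM.PartC r κ Φ Adm β) (hr : 1 ≤ r) (hr4 : r < 4) (hlast : r + 1 = 4) (hκ : ∀ l < r, κ l = .one)
    (hκt : κ r = .stp) (hs : ∀ Sl, Φ Sl → 2 < Sl r) :
    Pool.W.PKG.CasP 4 {r} κ Φ (fun Sl (a : Unit × Pool.ALT.PosR × ℕ) =>
      Pool.PKG.AndW (Pool.PKG.TruW 4) (Pool.ALT.LowR (Adm Sl) (β Sl - a.2.1) a.2.2)) := by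
  obtain ⟨ι, hc, Q, hQ, hh, H⟩ := H
  exact ⟨ι ⊕ (ℕ × ℕ × ℚ × ℚ), inferInstance, Pool.LA91.sumQ Q Pool.W.LA91.FaQ, Pool.W.LA91.aePG_sum hQ hh (Pool.W.LA91.aePG_fa 4),
    Pool.LA91.her_sum hh (Pool.W.LA91.her_fa 4), fun h h0 h1 Sl hS a =>
    Pool.W.PKG.CasW.leaf rfl (Pool.W.PKG.celZ_f1s hr hr4 hlast hκ hκt (hs Sl hS) (H h h0 h1 Sl hS a.2.1 a.2.2))
      fun _ _ _ _ _ _ _ _ _ _ _ _ hW e => hW.2.e e⟩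

/-- **Both rates, void.** -/
theorem PartV.w (H : Pool.W.ASM.PartV κ Φ Adm β) (H' : Pool.W.ASM.PartB κ Φ Adm β) : Pool.W.ASM.PartW r κ Φ :=
  Pool.W.PKG.CasP.rt Adm β H.cas H'.cas

theorem PartW.num (H : Pool.W.ASM.PartW r κ Φ) (H' : Pool.W.ASM.PartW r κ Φ') {Ψ : (ℕ → ℝ) → Prop}
    (h : ∀ Sl, Ψ Sl → Φ Sl ∨ Φ' Sl) : Pool.W.ASM.PartW r κ Ψ := (Pool.W.PKG.CasP.num H H').mono h

end

/-- Both kinds of `u` in one property. -/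
theorem part_two {r : ℕ} {κ κ' : ℕ → Pool.PKG.Kg} {Φ Φ' : (ℕ → ℝ) → Prop} (H : Pool.W.ASM.PartW r κ Φ)
    (H' : Pool.W.ASM.PartW r κ' Φ') : ∃ (ι : Type) (_ : Countable ι) (Q : Pool.PKG.PropG 4 ι), Pool.W.PKG.AePG 4 Q ∧ Pool.LA91.HerQ Q ∧
      ∀ h : ℝ, 0 < h → h ≤ 1 → ∀ Sl : ℕ → ℝ, (Φ Sl → Pool.W.PKG.CasW 4 {r} h Sl κ Q (Pool.PKG.TruW 4)) ∧
        (Φ' Sl → Pool.W.PKG.CasW 4 {r} h Sl κ' Q (Pool.PKG.TruW 4)) := by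
  obtain ⟨ι, hc, Q, hQ, hh, H⟩ := H
  obtain ⟨ι', hc', Q', hQ', hh', H'⟩ := H'
  exact ⟨ι ⊕ ι', inferInstance, Pool.LA91.sumQ Q Q', Pool.W.LA91.aePG_sum hQ hh hQ', Pool.LA91.her_sum hh hh',
    fun h h0 h1 Sl => ⟨fun hS => (H h h0 h1 Sl hS ()).inl, fun hS => (H' h h0 h1 Sl hS ()).inr⟩⟩


/-! ### The sheets -/


end Pool.W.ASM
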